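import Mathlib
import Pool.Agent.H25.MultiBoard

set_option autoImplicit false

namespace Pool.Agent.Results.MP_801c54_lc.Continuum

open Cardinal

/-- ONE has a winning strategy in the game with payoff `S` whose boards are indexed by `K`. -/
def OneWins (S : Set (ℕ → ℕ)) (K : Type) : Prop :=
  ∃ σ : List (K → ℕ) → (K → ℕ), ∀ f : ℕ → K → ℕ,
    (∀ n : ℕ, f (2 * n) = σ (List.ofFn (fun i : Fin (2 * n) => f i))) →
      ∃ α : K, (fun n => f n α) ∈ S

/-- TWO has a winning strategy in the game with payoff `S` whose boards are indexed by `K`. -/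
def TwoWins (S : Set (ℕ → ℕ)) (K : Type) : Prop :=
  ∃ τ : List (K → ℕ) → (K → ℕ), ∀ f : ℕ → K → ℕ,
    (∀ n : ℕ, f (2 * n + 1) = τ (List.ofFn (fun i : Fin (2 * n + 1) => f i))) →
      ∀ α : K, (fun n => f n α) ∉ S

def Determined (S : Set (ℕ → ℕ)) (K : Type) : Prop := OneWins S K ∨ TwoWins S K

open Pool.Agent.H25.MultiBoard in
theorem result : ∃ S : Set (ℕ → ℕ),
    (∀ K : Type, #K = 2 ^ ℵ₀ → Determined S K) ∧ (∀ K : Type, #K = ℵ₀ → ¬ Determined S K) := by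
  obtain ⟨S, h1, h2⟩ := exists_set
  have hone : ∀ K : Type, #K = 2 ^ ℵ₀ → OneWins S K := by
    intro K hK
    obtain ⟨e⟩ : Nonempty (ℕ ⊕ (ℕ → ℕ) × ℕ ↪ K) := by
      rw [← Cardinal.le_def, hK]
      simp
    obtain ⟨s, hs⟩ := strategy_legit e e.injective
    refine ⟨s, fun f hf => ?_⟩
    obtain ⟨b, hb⟩ := hs f hf
    obtain ⟨i, hi⟩ := h1 _ hb
    exact ⟨b i, hi⟩
  refine ⟨S, fun K hK => Or.inl (hone K hK), fun K hK => ?_⟩
  obtain ⟨e⟩ : Nonempty (K ≃ ℕ) := by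
    rw [← Cardinal.eq, hK]
    simp
  rintro (⟨s, hs⟩ | ⟨t, ht⟩)
  · obtain ⟨G, hG, hGs⟩ := code_of_strategy
      (fun l => s (l.map (fun g => g ∘ e)) ∘ e.symm)
    obtain ⟨z, hz⟩ := h2 G hG
    obtain ⟨a, ha⟩ := hs (fun n => G z n ∘ e) (by
      intro n
      rw [hGs z n, List.map_ofFn]
      funext a
      simp only [Function.comp_apply, Equiv.symm_apply_apply]
      rfl)
    exact hz (e a) ha
  · obtain ⟨s, hs⟩ := hone ℝ (by rw [mk_real, two_power_aleph0])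
    exact not_both (e.symm 0) S s hs t ht

end Pool.Agent.Results.MP_801c54_lc.Continuum
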